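import Mathlib

/-!
# A maximal ideal without a closed maximal eventually different family

We construct an ultrafilter on `ω` such that no Borel set is a set of representatives for
equality modulo the ultrafilter. The construction has length continuum; at each step we keep a
continuum of functions `ω → ω` independent modulo the filter constructed so far.
-/

namespace Pool.Agent.Results.MP_817dae_lc.NoBorelMED

open Set Filter Cardinal

/-- `I` is an ideal on `ω`: closed under subsets and finite unions, proper, and containing all the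
finite sets. -/
structure IsIdeal (I : Set (Set ℕ)) : Prop where
  subset : ∀ A B : Set ℕ, A ⊆ B → B ∈ I → A ∈ I
  union : ∀ A B : Set ℕ, A ∈ I → B ∈ I → A ∪ B ∈ I
  proper : (Set.univ : Set ℕ) ∉ I
  finite : ∀ A : Set ℕ, A.Finite → A ∈ I

/-- `I` is a maximal ideal on `ω`. -/
def IsMaximalIdeal (I : Set (Set ℕ)) : Prop :=
  IsIdeal I ∧ ∀ J : Set (Set ℕ), IsIdeal J → I ⊆ J → J = I

/-- `E` is an `I`-maximal eventually different family. -/
def IsMED (I : Set (Set ℕ)) (E : Set (ℕ → ℕ)) : Prop :=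
  (∀ f ∈ E, ∀ g ∈ E, f ≠ g → {n | f n = g n} ∈ I) ∧
    ∀ h : ℕ → ℕ, ∃ f ∈ E, {n | f n = h n} ∉ I

section Indep

variable {Λ : Type} (p : Λ → ℕ → ℕ)

/-- The basic sets of the independent family. -/
def D (s : Finset Λ) (v : Λ → ℕ) : Set ℕ := {n | ∀ l ∈ s, p l n = v l}

/-- The functions with index outside `S` are independent modulo the filter generated by `B`. -/
def Good (B : Set (Set ℕ)) (S : Set Λ) : Prop :=
  ∀ t : Finset (Set ℕ), (t : Set (Set ℕ)) ⊆ B → ∀ (s : Finset Λ) (v : Λ → ℕ),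
    Disjoint (s : Set Λ) S → (D p s v ∩ ⋂₀ (t : Set (Set ℕ))).Infinite

/-- `B` ensures that `E` is not a maximal eventually different family. -/
def Settles (B : Set (Set ℕ)) (E : Set (ℕ → ℕ)) : Prop :=
  ∀ U : Ultrafilter ℕ, (U : Filter ℕ) ≤ cofinite → (∀ A ∈ B, A ∈ U) → ¬ IsMED {A | Aᶜ ∈ U} E

variable {p}

theorem D_mono {s s' : Finset Λ} {v v' : Λ → ℕ} (h : s ⊆ s') (hv : ∀ l ∈ s, v' l = v l) :
    D p s' v' ⊆ D p s v := fun _ hm l hl => (hm l (h hl)).trans (hv l hl)

theorem settles_finite {E : Set (ℕ → ℕ)} (hE : E.Finite) : Settles ∅ E := by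
  intro U _ _ hM
  obtain ⟨f, hf, hfn⟩ := hM.2 (fun n => 1 + ∑ f ∈ hE.toFinset, f n)
  apply hfn
  have : {n | f n = 1 + ∑ f ∈ hE.toFinset, f n} = ∅ := by
    ext n
    simp only [mem_ofPred_eq, mem_empty_iff_false, iff_false]
    intro h
    have h1 : f n ≤ ∑ f ∈ hE.toFinset, f n :=
      Finset.single_le_sum (f := fun f : ℕ → ℕ => f n) (fun _ _ => Nat.zero_le _)
        (hE.mem_toFinset.mpr hf)
    omega
  rw [this]
  show (∅ : Set ℕ)ᶜ ∈ U
  rw [compl_empty]
  exact Filter.univ_mem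

open Classical in
/-- The successor step. -/
theorem step {B : Set (Set ℕ)} {S : Set Λ} (hG : Good p B S) {l0 : Λ} (hl0 : l0 ∉ S)
    (E : Set (ℕ → ℕ)) :
    ∃ (B' : Set (Set ℕ)) (R : Set Λ), R.Finite ∧ Good p (B ∪ B') (S ∪ R) ∧ Settles B' E := by
  by_cases hEf : E.Finite
  · exact ⟨∅, ∅, finite_empty, by simpa using hG, settles_finite hEf⟩
  by_cases hc : ∃ f ∈ E, ∃ g ∈ E, f ≠ g ∧ ∃ (s : Finset Λ) (v : Λ → ℕ), Disjoint (s : Set Λ) S ∧
      ∀ (s' : Finset Λ) (v' : Λ → ℕ), s ⊆ s' → (∀ l ∈ s, v' l = v l) → Disjoint (s' : Set Λ) S →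
        ∀ t : Finset (Set ℕ), (t : Set (Set ℕ)) ⊆ B →
          (D p s' v' ∩ {n | f n = g n} ∩ ⋂₀ (t : Set (Set ℕ))).Infinite
  · obtain ⟨f, hf, g, hg, hfg, s, v, hs, h⟩ := hc
    refine ⟨{D p s v ∩ {n | f n = g n}}, s, s.finite_toSet, ?_, ?_⟩
    · intro t ht s' v' hs'
      rw [disjoint_union_right] at hs'
      have hdis : Disjoint s s' := Finset.disjoint_coe.mp hs'.2.symm
      have h1 := h (s ∪ s') (fun l => if l ∈ s then v l else v' l) Finset.subset_union_left
        (fun l hl => by simp [hl]) (by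
          rw [Finset.coe_union, disjoint_union_left]
          exact ⟨hs, hs'.1⟩) (t.filter (· ∈ B)) (fun A hA => by simpa using (Finset.mem_filter.mp hA).2)
      refine h1.mono ?_
      rintro m ⟨⟨hm1, hm2⟩, hm3⟩
      have hms : m ∈ D p s v := fun l hl => by
        have := hm1 l (Finset.mem_union_left _ hl)
        simpa [hl] using this
      refine ⟨fun l hl => ?_, ?_⟩
      · have := hm1 l (Finset.mem_union_right _ hl)
        have hls : l ∉ s := fun h2 => (Finset.disjoint_left.mp hdis h2) hl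
        simpa [hls] using this
      · rw [mem_sInter]
        intro A hA
        rcases ht hA with hAB | hAB
        · exact hm3 A (Finset.mem_coe.mpr (Finset.mem_filter.mpr ⟨hA, hAB⟩))
        · rw [mem_singleton_iff.mp hAB]
          exact ⟨hms, hm2⟩
    · intro U hU hB hM
      have h1 : {n | f n = g n} ∈ U :=
        Filter.mem_of_superset (hB _ rfl) inter_subset_right
      have h2 := hM.1 f hf g hg hfg
      exact (Ultrafilter.compl_mem_iff_notMem.mp h2) h1
  · push Not at hc
    have hEi : E.Infinite := hEf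
    let G : ℕ ↪ E := hEi.natEmbedding
    let h : ℕ → ℕ := fun m => (G (p l0 m) : ℕ → ℕ) m
    refine ⟨{A | ∃ f ∈ E, A = {n | f n ≠ h n}}, {l0}, finite_singleton _, ?_, ?_⟩
    · intro t ht s v hs
      rw [disjoint_union_right, disjoint_singleton_right] at hs
      -- finitely many functions of `E`
      have ht' : ∀ A : Set ℕ, ∃ f : ℕ → ℕ, A ∈ t → A ∉ B → f ∈ E ∧ A = {n | f n ≠ h n} := by
        intro A
        by_cases hA : A ∈ t ∧ A ∉ B
        · rcases ht hA.1 with h1 | ⟨f, hf, h1⟩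
          · exact absurd h1 hA.2
          · exact ⟨f, fun _ _ => ⟨hf, h1⟩⟩
        · exact ⟨fun _ => 0, fun h1 h2 => absurd ⟨h1, h2⟩ hA⟩
      choose φ hφ using ht'
      let Fs : Finset (ℕ → ℕ) := (t.filter (· ∉ B)).image φ
      have hFs : ∀ f ∈ Fs, f ∈ E := by
        intro f hf
        obtain ⟨A, hA, rfl⟩ := Finset.mem_image.mp hf
        rw [Finset.mem_filter] at hA
        exact (hφ A hA.1 hA.2).1
      -- a function outside the finite set
      obtain ⟨i, hi⟩ : ∃ i : ℕ, (G i : ℕ → ℕ) ∉ Fs := by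
        by_contra hcon
        push Not at hcon
        have hinj : Function.Injective fun i : ℕ => (⟨(G i : ℕ → ℕ), hcon i⟩ : Fs) := by
          intro i j hij
          have h1 : (G i : ℕ → ℕ) = G j := by simpa using hij
          exact G.injective (Subtype.ext h1)
        exact not_injective_infinite_finite _ hinj
      -- the main claim: successive extension
      have key : ∀ F : Finset (ℕ → ℕ), (∀ f ∈ F, f ∈ E) → (G i : ℕ → ℕ) ∉ F →
          ∀ (s0 : Finset Λ) (v0 : Λ → ℕ), Disjoint (s0 : Set Λ) S →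
          ∃ (s' : Finset Λ) (v' : Λ → ℕ) (t' : Finset (Set ℕ)), s0 ⊆ s' ∧
            (∀ l ∈ s0, v' l = v0 l) ∧ Disjoint (s' : Set Λ) S ∧ (t' : Set (Set ℕ)) ⊆ B ∧
            ∀ f ∈ F, (D p s' v' ∩ {n | f n = (G i : ℕ → ℕ) n} ∩ ⋂₀ (t' : Set (Set ℕ))).Finite := by
        intro F
        induction F using Finset.induction_on with
        | empty =>
          intro _ _ s0 v0 hs0
          exact ⟨s0, v0, ∅, Finset.Subset.refl _, fun _ _ => rfl, hs0, by simp, by simp⟩
        | insert f F hfF ih =>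
          intro hFE hGF s0 v0 hs0
          obtain ⟨s1, v1, t1, h1, h2, h3, h4, h5⟩ := ih
            (fun g hg => hFE g (Finset.mem_insert_of_mem hg))
            (fun hg => hGF (Finset.mem_insert_of_mem hg)) s0 v0 hs0
          have hne : f ≠ (G i : ℕ → ℕ) := fun e => hGF (by rw [← e]; exact Finset.mem_insert_self _ _)
          obtain ⟨s2, v2, h6, h7, h8, t2, h9, h10⟩ := hc f (hFE f (Finset.mem_insert_self _ _))
            (G i) (G i).2 hne s1 v1 h3
          refine ⟨s2, v2, t1 ∪ t2, h1.trans h6, fun l hl => (h7 l (h1 hl)).trans (h2 l hl), h8, ?_, ?_⟩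
          · rw [Finset.coe_union]
            exact union_subset h4 h9
          · intro g hg
            rcases Finset.mem_insert.mp hg with rfl | hg
            · refine Set.Finite.subset (not_infinite.mp (by simpa using h10)) ?_
              rintro m ⟨hm1, hm2⟩
              exact ⟨hm1, fun A hA => hm2 A (by
                rw [Finset.coe_union]; exact Or.inr hA)⟩
            · refine (h5 g hg).subset ?_
              rintro m ⟨⟨hm1, hm2⟩, hm3⟩
              exact ⟨⟨D_mono h6 h7 hm1, hm2⟩, fun A hA => hm3 A (by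
                rw [Finset.coe_union]; exact Or.inl hA)⟩
      obtain ⟨s', v', t', h1, h2, h3, h4, h5⟩ := key Fs hFs hi (insert l0 s)
        (fun l => if l = l0 then i else v l) (by
          rw [Finset.coe_insert, insert_eq, disjoint_union_left, disjoint_singleton_left]
          exact ⟨hl0, hs.1⟩)
      have hbig := hG (t.filter (· ∈ B) ∪ t') (by
        rw [Finset.coe_union]
        refine union_subset (fun A hA => ?_) h4
        exact (Finset.mem_filter.mp hA).2) s' v' h3
      have hfin : (⋃ f ∈ Fs, (D p s' v' ∩ {n | f n = (G i : ℕ → ℕ) n} ∩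
          ⋂₀ (t' : Set (Set ℕ)))).Finite := Fs.finite_toSet.biUnion fun f hf => h5 f hf
      refine (hbig.sdiff hfin).mono ?_
      rintro m ⟨⟨hm1, hm2⟩, hm3⟩
      have hmt' : m ∈ ⋂₀ (t' : Set (Set ℕ)) := fun A hA => hm2 A (by
        rw [Finset.coe_union]; exact Or.inr hA)
      have hl0s : l0 ∉ s := hs.2
      have hpm : p l0 m = i := by
        have e1 := hm1 l0 (h1 (Finset.mem_insert_self _ _))
        rw [h2 l0 (Finset.mem_insert_self _ _), if_pos rfl] at e1
        exact e1
      have hhm : h m = (G i : ℕ → ℕ) m := by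
        show (G (p l0 m) : ℕ → ℕ) m = _
        rw [hpm]
      refine ⟨fun l hl => ?_, ?_⟩
      · have e1 := hm1 l (h1 (Finset.mem_insert_of_mem hl))
        have hll : l ≠ l0 := fun e => hl0s (e ▸ hl)
        rw [h2 l (Finset.mem_insert_of_mem hl), if_neg hll] at e1
        exact e1
      · rw [mem_sInter]
        intro A hA
        by_cases hAB : A ∈ B
        · exact hm2 A (by
            rw [Finset.coe_union]
            exact Or.inl (Finset.mem_coe.mpr (Finset.mem_filter.mpr ⟨hA, hAB⟩)))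
        · rw [(hφ A hA hAB).2]
          intro e
          apply hm3
          have hmem : φ A ∈ Fs :=
            Finset.mem_image_of_mem _ (Finset.mem_filter.mpr ⟨hA, hAB⟩)
          rw [mem_iUnion₂]
          exact ⟨φ A, hmem, ⟨hm1, e.trans hhm⟩, hmt'⟩
    · intro U hU hB hM
      obtain ⟨f, hf, hfn⟩ := hM.2 h
      apply hfn
      exact hB _ ⟨f, hf, rfl⟩

end Indep

/-- An independent family of functions of size continuum. -/
theorem exists_indep : ∃ p : (ℕ → Bool) → ℕ → ℕ, Good p ∅ ∅ := by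
  classical
  let M : Type := Σ n : ℕ, ((Fin n → Bool) → ℕ)
  have : Infinite M := Infinite.of_injective (fun n : ℕ => (⟨n, fun _ => 0⟩ : M)) (by
    intro a b h
    exact congrArg Sigma.fst h)
  obtain ⟨e⟩ : Nonempty (M ≃ ℕ) := nonempty_equiv_of_countable
  refine ⟨fun x m => (e.symm m).2 fun i => x i, fun t ht s v hs => ?_⟩
  have hinf : {m : M | ∀ x ∈ s, m.2 (fun i => x i) = v x}.Infinite := by
    obtain ⟨N, hN⟩ : ∃ N : ℕ, ∀ x ∈ s, ∀ y ∈ s, x ≠ y → ∃ i < N, x i ≠ y i := by
      have h1 : ∀ x y : ℕ → Bool, ∃ i, x ≠ y → x i ≠ y i := by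
        intro x y
        by_cases h : x = y
        · exact ⟨0, fun h' => absurd h h'⟩
        · obtain ⟨i, hi⟩ := Function.ne_iff.mp h
          exact ⟨i, fun _ => hi⟩
      choose i hi using h1
      refine ⟨(∑ x ∈ s, ∑ y ∈ s, i x y) + 1, fun x hx y hy hxy => ⟨i x y, ?_, hi x y hxy⟩⟩
      have e1 : i x y ≤ ∑ y ∈ s, i x y :=
        Finset.single_le_sum (f := fun y => i x y) (fun _ _ => Nat.zero_le _) hy
      have e2 : ∑ y ∈ s, i x y ≤ ∑ x ∈ s, ∑ y ∈ s, i x y :=
        Finset.single_le_sum (f := fun x => ∑ y ∈ s, i x y) (fun _ _ => Nat.zero_le _) hx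
      omega
    have hex : ∀ n : ℕ, ∃ φ : (Fin (N + n) → Bool) → ℕ,
        ∀ x ∈ s, φ (fun i : Fin (N + n) => x i) = v x := by
      intro n
      refine ⟨fun z => if h : ∃ x ∈ s, (fun i : Fin (N + n) => x i) = z then v h.choose else 0, ?_⟩
      intro x hx
      have h : ∃ x' ∈ s, (fun i : Fin (N + n) => x' i) = fun i : Fin (N + n) => x i := ⟨x, hx, rfl⟩
      beta_reduce
      rw [dif_pos h]
      congr 1
      by_contra hne
      obtain ⟨i, hi, hi2⟩ := hN _ h.choose_spec.1 x hx hne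
      exact hi2 (congrFun h.choose_spec.2 ⟨i, by omega⟩)
    choose φ hφ using hex
    refine Set.infinite_of_injective_forall_mem (f := fun n : ℕ => (⟨N + n, φ n⟩ : M)) ?_ ?_
    · intro a b h
      have : N + a = N + b := congrArg Sigma.fst h
      omega
    · intro n x hx
      exact hφ n x hx
  have h2 := hinf.image (f := e) e.injective.injOn
  refine h2.mono ?_
  rintro _ ⟨m, hm, rfl⟩
  refine ⟨fun x hx => ?_, fun A hA => absurd (ht hA) (by simp)⟩
  show (e.symm (e m)).2 _ = _
  rw [e.symm_apply_apply]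
  exact hm x hx

section Rec

variable {Λ : Type} {p : Λ → ℕ → ℕ}

/-- Unions of chains. -/
theorem good_union {T : Type} [LinearOrder T] (B : T → Set (Set ℕ)) (R : T → Set Λ)
    (h0 : Good p ∅ ∅) (e : Set T) (he : IsLowerSet e)
    (h : ∀ a ∈ e, Good p (⋃ b ∈ Iic a, B b) (⋃ b ∈ Iic a, R b)) :
    Good p (⋃ b ∈ e, B b) (⋃ b ∈ e, R b) := by
  classical
  intro t ht s v hs
  -- a bound for the finitely many indices
  have h1 : t = ∅ ∨ ∃ a ∈ e, (t : Set (Set ℕ)) ⊆ ⋃ b ∈ Iic a, B b := by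
    clear hs
    induction t using Finset.induction_on with
    | empty => exact Or.inl rfl
    | insert A t hAt ih =>
      right
      have hA : A ∈ ⋃ b ∈ e, B b := ht (by simp)
      rw [mem_iUnion₂] at hA
      obtain ⟨b, hb, hAb⟩ := hA
      rcases ih (fun x hx => ht (by simp [Finset.mem_coe.mp hx])) with rfl | ⟨a, ha, hta⟩
      · refine ⟨b, hb, fun x hx => ?_⟩
        have : x = A := by simpa using hx
        rw [this]
        exact mem_iUnion₂.mpr ⟨b, le_refl b, hAb⟩
      · rcases le_total a b with hab | hab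
        · refine ⟨b, hb, fun x hx => ?_⟩
          rcases Finset.mem_insert.mp (Finset.mem_coe.mp hx) with rfl | hx
          · exact mem_iUnion₂.mpr ⟨b, le_refl b, hAb⟩
          · obtain ⟨c, hc, hxc⟩ := mem_iUnion₂.mp (hta hx)
            exact mem_iUnion₂.mpr ⟨c, le_trans hc hab, hxc⟩
        · refine ⟨a, ha, fun x hx => ?_⟩
          rcases Finset.mem_insert.mp (Finset.mem_coe.mp hx) with rfl | hx
          · exact mem_iUnion₂.mpr ⟨b, hab, hAb⟩
          · exact hta hx
  rcases h1 with rfl | ⟨a, ha, hta⟩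
  · exact h0 ∅ (by simp) s v (by simp)
  · refine h a ha t hta s v (hs.mono_right ?_)
    intro l hl
    obtain ⟨c, hc, hlc⟩ := mem_iUnion₂.mp hl
    exact mem_iUnion₂.mpr ⟨c, he hc ha, hlc⟩

open Classical in
/-- The choice made at one step of the construction. -/
noncomputable def next (p : Λ → ℕ → ℕ) (E : Set (ℕ → ℕ)) (B : Set (Set ℕ)) (S : Set Λ) :
    Set (Set ℕ) × Set Λ :=
  if h : ∃ q : Set (Set ℕ) × Set Λ, q.2.Finite ∧ Good p (B ∪ q.1) (S ∪ q.2) ∧ Settles q.1 E then
    h.choose else (∅, ∅)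

theorem next_finite (E : Set (ℕ → ℕ)) (B : Set (Set ℕ)) (S : Set Λ) :
    (next p E B S).2.Finite := by
  unfold next
  split_ifs with h
  · exact h.choose_spec.1
  · exact finite_empty

theorem next_spec {E : Set (ℕ → ℕ)} {B : Set (Set ℕ)} {S : Set Λ} (hG : Good p B S)
    {l0 : Λ} (hl0 : l0 ∉ S) :
    Good p (B ∪ (next p E B S).1) (S ∪ (next p E B S).2) ∧ Settles (next p E B S).1 E := by
  have h : ∃ q : Set (Set ℕ) × Set Λ, q.2.Finite ∧ Good p (B ∪ q.1) (S ∪ q.2) ∧
      Settles q.1 E := by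
    obtain ⟨B', R, h1, h2, h3⟩ := step hG hl0 E
    exact ⟨(B', R), h1, h2, h3⟩
  unfold next
  rw [dif_pos h]
  exact h.choose_spec.2

theorem exists_rec {T : Type} [LinearOrder T] [WellFoundedLT T] (p : Λ → ℕ → ℕ)
    (E : T → Set (ℕ → ℕ)) : ∃ q : T → Set (Set ℕ) × Set Λ, ∀ e,
      q e = next p (E e) (⋃ b ∈ Iio e, (q b).1) (⋃ b ∈ Iio e, (q b).2) := by
  let F : (e : T) → ((b : T) → b < e → Set (Set ℕ) × Set Λ) → Set (Set ℕ) × Set Λ :=
    fun e ih => next p (E e) (⋃ b : {b // b < e}, (ih b.1 b.2).1) (⋃ b : {b // b < e}, (ih b.1 b.2).2)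
  refine ⟨(wellFounded_lt (α := T)).fix F, fun e => ?_⟩
  rw [WellFounded.fix_eq]
  simp only [F]
  congr 1
  · ext A
    simp
  · ext A
    simp

theorem main {T : Type} [LinearOrder T] [WellFoundedLT T] (h0 : Good p ∅ ∅)
    (hT : ∀ e : T, #(Iio e) < #Λ) (hΛ : ℵ₀ < #Λ) (E : T → Set (ℕ → ℕ)) :
    ∃ U : Ultrafilter ℕ, (U : Filter ℕ) ≤ cofinite ∧ ∀ e, ¬ IsMED {A | Aᶜ ∈ U} (E e) := by
  obtain ⟨q, hq⟩ := exists_rec p E
  have hfin : ∀ e, (q e).2.Finite := by
    intro e
    rw [hq e]
    exact next_finite _ _ _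
  -- there is always an unused index
  have hfree : ∀ e, ∃ l0, l0 ∉ ⋃ b ∈ Iio e, (q b).2 := by
    intro e
    by_contra hcon
    push Not at hcon
    have h1 : (⋃ b ∈ Iio e, (q b).2) = Set.univ := eq_univ_of_forall hcon
    have h2 : #(⋃ b ∈ Iio e, (q b).2 : Set Λ) ≤ #(Iio e) * ℵ₀ := by
      rw [biUnion_eq_iUnion]
      refine (mk_iUnion_le_sum_mk).trans ?_
      refine (sum_le_sum _ (fun _ => ℵ₀) fun b => ?_).trans ?_
      · exact ((hfin b).countable).le_aleph0
      · simp
    rw [h1, mk_univ] at h2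
    exact absurd h2 (not_le.mpr (mul_lt_of_lt hΛ.le (hT e) hΛ))
  have hgood : ∀ e, Good p (⋃ b ∈ Iic e, (q b).1) (⋃ b ∈ Iic e, (q b).2) := by
    intro e
    induction e using WellFoundedLT.induction with
    | ind e ih =>
      have h1 : Good p (⋃ b ∈ Iio e, (q b).1) (⋃ b ∈ Iio e, (q b).2) :=
        good_union _ _ h0 _ (isLowerSet_Iio e) fun a ha => ih a ha
      obtain ⟨l0, hl0⟩ := hfree e
      have h2 := (next_spec (E := E e) h1 hl0).1
      rw [← hq e] at h2
      have e1 : (⋃ b ∈ Iic e, (q b).1) = (⋃ b ∈ Iio e, (q b).1) ∪ (q e).1 := by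
        rw [← Iio_insert, biUnion_insert, union_comm]
      have e2 : (⋃ b ∈ Iic e, (q b).2) = (⋃ b ∈ Iio e, (q b).2) ∪ (q e).2 := by
        rw [← Iio_insert, biUnion_insert, union_comm]
      rw [e1, e2]
      exact h2
  have hset : ∀ e, Settles (q e).1 (E e) := by
    intro e
    have h1 : Good p (⋃ b ∈ Iio e, (q b).1) (⋃ b ∈ Iio e, (q b).2) :=
      good_union _ _ h0 _ (isLowerSet_Iio e) fun a _ => hgood a
    obtain ⟨l0, hl0⟩ := hfree e
    have h2 := (next_spec (E := E e) h1 hl0).2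
    rw [← hq e] at h2
    exact h2
  have hall : Good p (⋃ b ∈ (Set.univ : Set T), (q b).1) (⋃ b ∈ (Set.univ : Set T), (q b).2) :=
    good_union _ _ h0 _ isLowerSet_univ fun a _ => hgood a
  set B : Set (Set ℕ) := ⋃ b ∈ (Set.univ : Set T), (q b).1 with hB
  -- the ultrafilter
  have hne : (generate B ⊓ cofinite).NeBot := by
    rw [inf_neBot_iff]
    intro A hA C hC
    rw [mem_generate_iff] at hA
    obtain ⟨t, ht, htf, htA⟩ := hA
    have h1 := hall htf.toFinset (by simpa using ht) ∅ (fun _ => 0) (by simp)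
    have h2 : (Cᶜ).Finite := hC
    obtain ⟨m, hm, hmC⟩ := (h1.sdiff h2).nonempty
    refine ⟨m, htA ?_, by simpa using hmC⟩
    simpa using hm.2
  obtain ⟨U, hU⟩ := Ultrafilter.exists_le (generate B ⊓ cofinite)
  refine ⟨U, hU.trans inf_le_right, fun e => hset e U (hU.trans inf_le_right) fun A hA => ?_⟩
  have : A ∈ generate B := mem_generate_of_mem (mem_iUnion₂.mpr ⟨e, Set.mem_univ e, hA⟩)
  exact hU (mem_inf_of_left this)

end Rec

theorem isMaximalIdeal_of_ultrafilter (U : Ultrafilter ℕ) (hU : (U : Filter ℕ) ≤ cofinite) :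
    IsMaximalIdeal {A | Aᶜ ∈ U} := by
  refine ⟨⟨?_, ?_, ?_, ?_⟩, ?_⟩
  · intro A B hAB hB
    exact Filter.mem_of_superset (f := (U : Filter ℕ)) hB (compl_subset_compl.mpr hAB)
  · intro A B hA hB
    show (A ∪ B)ᶜ ∈ U
    rw [compl_union]
    exact Filter.inter_mem (f := (U : Filter ℕ)) hA hB
  · intro h
    have h1 : (Set.univ : Set ℕ)ᶜ ∈ U := h
    rw [compl_univ] at h1
    exact U.empty_notMem h1
  · intro A hA
    refine hU ?_
    rw [mem_cofinite, compl_compl]
    exact hA
  · intro J hJ hIJ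
    refine Subset.antisymm (fun A hA => ?_) hIJ
    by_contra hcon
    have h1 : Aᶜ ∉ U := hcon
    have h2 : A ∈ U := by
      rwa [Ultrafilter.compl_notMem_iff] at h1
    have h3 : Aᶜ ∈ J := hIJ (by
      show Aᶜᶜ ∈ U
      rwa [compl_compl])
    have h4 := hJ.union A Aᶜ hA h3
    rw [union_compl_self] at h4
    exact hJ.proper h4

/-- **Main theorem.** There is a maximal ideal `I` on `ω` such that no Borel subset of `ω^ω`, and in
particular no closed subset, is an `I`-maximal eventually different family. -/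
theorem result : ∃ I : Set (Set ℕ), IsMaximalIdeal I ∧
    (∀ E : Set (ℕ → ℕ), IsClosed E → ¬ IsMED I E) ∧
    (∀ E : Set (ℕ → ℕ), MeasurableSet E → ¬ IsMED I E) := by
  obtain ⟨p, hp⟩ := exists_indep
  let T : Type := (continuum.{0}).ord.ToType
  have hΛ : #(ℕ → Bool) = continuum := by simp
  have hT : ∀ e : T, #(Iio e) < #(ℕ → Bool) := by
    intro e
    rw [hΛ]
    have := mk_Iio_lt e (by simp [T])
    simpa [T] using this
  -- enumeration of the Borel sets
  have hcard : #{E : Set (ℕ → ℕ) // MeasurableSet E} ≤ #T := by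
    have h1 : #T = continuum := by simp [T]
    rw [h1, BorelSpace.measurable_eq (α := ℕ → ℕ), borel_eq_generateFrom_of_subbasis (s := TopologicalSpace.countableBasis (ℕ → ℕ))
      (TopologicalSpace.eq_generateFrom_countableBasis _)]
    refine MeasurableSpace.cardinal_measurableSet_le_continuum ?_
    exact (TopologicalSpace.countable_countableBasis (ℕ → ℕ)).le_aleph0.trans aleph0_le_continuum
  obtain ⟨g⟩ : Nonempty ({E : Set (ℕ → ℕ) // MeasurableSet E} ↪ T) := hcard
  have : Nonempty {E : Set (ℕ → ℕ) // MeasurableSet E} :=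
    ⟨⟨∅, MeasurableSet.empty⟩⟩
  obtain ⟨U, hU, hE⟩ := main (T := T) hp hT (by rw [hΛ]; exact aleph0_lt_continuum)
    (fun e => (Function.invFun g e).1)
  have hB : ∀ E : Set (ℕ → ℕ), MeasurableSet E → ¬ IsMED {A | Aᶜ ∈ U} E := by
    intro E hEm
    have h1 := hE (g ⟨E, hEm⟩)
    rwa [Function.leftInverse_invFun g.injective] at h1
  refine ⟨{A | Aᶜ ∈ U}, isMaximalIdeal_of_ultrafilter U hU, fun E hEc => hB E hEc.measurableSet, hB⟩

end Pool.Agent.Results.MP_817dae_lc.NoBorelMED
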